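import Mathlib
import Pool.Agent.RepGrowth.Final

set_option autoImplicit false

/-!
The integrated inequality of `Pool.Agent.RepGrowth.MainIneq`, with the exponent loss `η = 0`
allowed as soon as `2 / k < 1`.
-/

namespace Pool.Agent.RepSharp

open Finset Equiv MeasureTheory Real Pool.Agent.RepGrowth

/-- The pointwise inequality on the circle. -/
lemma pointwise_sharp (k : ℕ) (hk : 2 ≤ k) (i : ℕ) (hi : i ∈ ({1, 2, 3} : Finset ℕ)) (A : Set ℕ)
    (n₀ : ℕ) (hmono : ∀ n, n₀ ≤ n → rep A k i n ≤ rep A k i (n + 1)) (η : ℝ) (hη0 : 0 ≤ η) :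
    ∃ K : ℝ, 0 < K ∧ ∀ r : ℝ, 1 / 4 ≤ r → r < 1 → ∀ θ : ℝ, |θ| ≤ π → θ ≠ 0 → η ≤ 2 / (k : ℝ) →
      ‖gen A (pt r θ)‖ ^ 2 ≤
        K * ((1 - r) ^ (-η) * ((1 - r) * repGen A k i r + 2 * ∑ n ∈ range n₀, (rep A k i n : ℝ))
          ^ (2 / (k : ℝ)) * |θ| ^ (-(2 / (k : ℝ) - η)) + 1)
        + 1 / (4 * (k : ℝ) ^ 2) * (2 + 2 * k * ∑ j ∈ Icc 1 k, ‖gen A (pt r θ ^ j)‖ ^ 2) := by
  obtain ⟨c, hc0, hc⟩ := exists_const_norm_sub_le k i hi
  have hk0 : (0 : ℝ) < k := by exact_mod_cast (by omega : 0 < k)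
  have hk2 : (2 : ℝ) ≤ k := by exact_mod_cast hk
  set p : ℝ := 2 / (k : ℝ) with hp
  have hp0 : 0 < p := by positivity
  have hp1 : p ≤ 1 := by rw [hp, div_le_one hk0]; exact hk2
  have hkp : (k : ℝ) * p = 2 := by rw [hp]; field_simp
  set kf : ℝ := (k.factorial : ℝ) with hkf
  have hkf0 : 0 < kf := by rw [hkf]; exact_mod_cast Nat.factorial_pos k
  -- choose δ with (kf * δ) ^ p = 1 / (4 k^2)
  set δ : ℝ := (1 / (4 * (k : ℝ) ^ 2)) ^ (1 / p) / kf with hδ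
  have hδ0 : 0 < δ := by positivity
  have hδp : (kf * δ) ^ p = 1 / (4 * (k : ℝ) ^ 2) := by
    rw [hδ, mul_div_cancel₀ _ hkf0.ne', ← Real.rpow_mul (by positivity), one_div_mul_cancel hp0.ne',
      Real.rpow_one]
  refine ⟨c ^ p * π ^ (p - η) + (kf * (1 / δ) ^ (k - 1)) ^ p + 1, by positivity, ?_⟩
  intro r hr hr1 θ hθ hθ0 hηp
  have hr0 : 0 ≤ r := by linarith
  set z : ℂ := pt r θ with hz
  have hzr : ‖z‖ = r := norm_pt hr0 θ
  have hz1 : ‖z‖ < 1 := by rw [hzr]; exact hr1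
  set x : ℝ := 1 + ∑ j ∈ Icc 1 k, ‖gen A (z ^ j)‖ with hx
  have hS0 : 0 ≤ ∑ j ∈ Icc 1 k, ‖gen A (z ^ j)‖ := Finset.sum_nonneg fun _ _ => norm_nonneg _
  have hx1 : 1 ≤ x := by linarith
  have hx0 : 0 ≤ x := by linarith
  have hxj : ∀ j ∈ Icc 1 k, ‖gen A (z ^ j)‖ ≤ x := by
    intro j hj
    have := Finset.single_le_sum (f := fun j => ‖gen A (z ^ j)‖) (fun _ _ => norm_nonneg _) hj
    linarith
  have h1 := hc A z hz1 x hx1 hxj
  set C0 : ℝ := 2 * ∑ n ∈ range n₀, (rep A k i n : ℝ) with hC0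
  have hC00 : 0 ≤ C0 := by positivity
  set Y : ℝ := (1 - r) * repGen A k i r + C0 with hY
  have hrg0 : 0 ≤ repGen A k i r := by
    unfold repGen
    exact tsum_nonneg fun n => by positivity
  have hY0 : 0 ≤ Y := by
    have : 0 ≤ (1 - r) * repGen A k i r := mul_nonneg (by linarith) hrg0
    linarith
  -- bound for the restricted sum
  have h2 : ‖1 - z‖ * ‖restrSum A z (fun a : Fin k → ℕ => cond i a)‖ ≤ Y := by
    have := norm_one_sub_mul_le (fun n => (rep A k i n : ℝ)) (fun n => by positivity) n₀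
      (fun n hn => by exact_mod_cast hmono n hn)
      (fun r h0 h1 => summable_rep A k i h0 h1) z hz1
    rw [restrSum_eq A hz1 k i]
    rw [hzr] at this
    exact this
  have hθa : 0 < |θ| := abs_pos.2 hθ0
  have h3 : |θ| / π ≤ ‖1 - z‖ := norm_one_sub_pt_ge hr hθ
  have h3' : 1 - r ≤ ‖1 - z‖ := by
    have := norm_sub_norm_le (1 : ℂ) z
    rw [norm_one, hzr] at this
    exact this
  have hθπ : 0 < |θ| / π := div_pos hθa Real.pi_pos
  have hw0 : 0 < ‖1 - z‖ := lt_of_lt_of_le hθπ h3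
  have h4 : ‖restrSum A z (fun a : Fin k → ℕ => cond i a)‖ ≤ Y / ‖1 - z‖ := by
    rw [le_div_iff₀ hw0, mul_comm]
    exact h2
  -- combine
  have h5 : ‖gen A z‖ ^ k ≤ c * (Y / ‖1 - z‖) + (kf * δ * x ^ k + kf * (1 / δ) ^ (k - 1)) := by
    have h6 := pow_pred_le hx0 hδ0 (by omega : 1 ≤ k)
    have h7 : kf * x ^ (k - 1) ≤ kf * (δ * x ^ k + (1 / δ) ^ (k - 1)) :=
      mul_le_mul_of_nonneg_left h6 hkf0.le
    have h8 := mul_le_mul_of_nonneg_left h4 hc0
    calc ‖gen A z‖ ^ k ≤ _ := h1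
      _ ≤ c * (Y / ‖1 - z‖) + kf * (δ * x ^ k + (1 / δ) ^ (k - 1)) := add_le_add h8 h7
      _ = _ := by ring
  have h6 : ‖gen A z‖ ^ 2 = (‖gen A z‖ ^ k) ^ p := by
    rw [← Real.rpow_natCast, ← Real.rpow_natCast, ← Real.rpow_mul (norm_nonneg _), hkp]
    norm_num
  have h7 : ‖gen A z‖ ^ 2 ≤ (c * (Y / ‖1 - z‖)) ^ p + ((kf * δ * x ^ k) ^ p
      + (kf * (1 / δ) ^ (k - 1)) ^ p) := by
    rw [h6]
    calc (‖gen A z‖ ^ k) ^ p
        ≤ (c * (Y / ‖1 - z‖) + (kf * δ * x ^ k + kf * (1 / δ) ^ (k - 1))) ^ p :=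
          Real.rpow_le_rpow (by positivity) h5 hp0.le
      _ ≤ (c * (Y / ‖1 - z‖)) ^ p + (kf * δ * x ^ k + kf * (1 / δ) ^ (k - 1)) ^ p :=
          Real.rpow_add_le_add_rpow (by positivity) (by positivity) hp0.le hp1
      _ ≤ _ := by
          gcongr
          exact Real.rpow_add_le_add_rpow (by positivity) (by positivity) hp0.le hp1
  have h8 : (kf * δ * x ^ k) ^ p = 1 / (4 * (k : ℝ) ^ 2) * x ^ 2 := by
    rw [Real.mul_rpow (by positivity) (by positivity), hδp]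
    congr 1
    rw [← Real.rpow_natCast x k, ← Real.rpow_mul hx0, hkp]
    norm_num
  have h9 : x ^ 2 ≤ 2 + 2 * k * ∑ j ∈ Icc 1 k, ‖gen A (z ^ j)‖ ^ 2 := by
    have h10 := sq_sum_le_card_mul_sum_sq (s := Icc 1 k) (f := fun j => ‖gen A (z ^ j)‖)
    rw [Nat.card_Icc] at h10
    simp only [Nat.add_sub_cancel] at h10
    rw [hx]
    nlinarith [sq_nonneg (1 - ∑ j ∈ Icc 1 k, ‖gen A (z ^ j)‖)]
  have h11 : (c * (Y / ‖1 - z‖)) ^ p
      ≤ c ^ p * π ^ (p - η) * ((1 - r) ^ (-η) * Y ^ p * |θ| ^ (-(p - η))) := by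
    have e1 : (c * (Y / ‖1 - z‖)) ^ p = c ^ p * (Y ^ p * ‖1 - z‖ ^ (-p)) := by
      rw [Real.mul_rpow hc0 (by positivity), Real.div_rpow hY0 hw0.le, Real.rpow_neg hw0.le]
      rfl
    have e2 : ‖1 - z‖ ^ (-p) = ‖1 - z‖ ^ (-η) * ‖1 - z‖ ^ (-(p - η)) := by
      rw [← Real.rpow_add hw0]
      congr 1
      ring
    have e3 : ‖1 - z‖ ^ (-η) ≤ (1 - r) ^ (-η) :=
      Real.rpow_le_rpow_of_nonpos (by linarith) h3' (by linarith)
    have e4 : ‖1 - z‖ ^ (-(p - η)) ≤ (|θ| / π) ^ (-(p - η)) :=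
      Real.rpow_le_rpow_of_nonpos hθπ h3 (by linarith)
    have e5 : (|θ| / π) ^ (-(p - η)) = |θ| ^ (-(p - η)) * π ^ (p - η) := by
      rw [Real.div_rpow hθa.le Real.pi_pos.le, Real.rpow_neg Real.pi_pos.le, div_eq_mul_inv, inv_inv]
    rw [e1, e2]
    have e6 : ‖1 - z‖ ^ (-η) * ‖1 - z‖ ^ (-(p - η))
        ≤ (1 - r) ^ (-η) * (|θ| ^ (-(p - η)) * π ^ (p - η)) := by
      rw [← e5]
      exact mul_le_mul e3 e4 (by positivity) (Real.rpow_nonneg (by linarith) _)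
    have hcp : 0 ≤ c ^ p := Real.rpow_nonneg hc0 _
    have hYp : 0 ≤ Y ^ p := Real.rpow_nonneg hY0 _
    calc c ^ p * (Y ^ p * (‖1 - z‖ ^ (-η) * ‖1 - z‖ ^ (-(p - η))))
        ≤ c ^ p * (Y ^ p * ((1 - r) ^ (-η) * (|θ| ^ (-(p - η)) * π ^ (p - η)))) := by
          gcongr
      _ = _ := by ring
  have hA0 : 0 ≤ (1 - r) ^ (-η) * Y ^ p * |θ| ^ (-(p - η)) := by
    have : 0 ≤ (1 - r) ^ (-η) := Real.rpow_nonneg (by linarith) _
    positivity
  have hB0 : 0 ≤ (kf * (1 / δ) ^ (k - 1)) ^ p := by positivity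
  have hD0 : 0 ≤ c ^ p * π ^ (p - η) := by positivity
  have h12 : 1 / (4 * (k : ℝ) ^ 2) * x ^ 2
      ≤ 1 / (4 * (k : ℝ) ^ 2) * (2 + 2 * k * ∑ j ∈ Icc 1 k, ‖gen A (z ^ j)‖ ^ 2) :=
    mul_le_mul_of_nonneg_left h9 (by positivity)
  rw [h8] at h7
  set W := (1 - r) ^ (-η) * Y ^ p * |θ| ^ (-(p - η)) with hW
  set B := (kf * (1 / δ) ^ (k - 1)) ^ p with hB
  set D := c ^ p * π ^ (p - η) with hD
  nlinarith [mul_nonneg hB0 hA0]

/-- The integrated inequality. -/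
lemma main_ineq_sharp (k : ℕ) (hk : 2 ≤ k) (i : ℕ) (hi : i ∈ ({1, 2, 3} : Finset ℕ)) (A : Set ℕ)
    (n₀ : ℕ) (hmono : ∀ n, n₀ ≤ n → rep A k i n ≤ rep A k i (n + 1)) (η : ℝ) (hη0 : 0 ≤ η)
    (hη : η ≤ 2 / (k : ℝ)) (hη1 : 2 / (k : ℝ) - η < 1) :
    ∃ K : ℝ, 0 < K ∧ ∀ r : ℝ, 1 / 4 ≤ r → r < 1 →
      genR A (r ^ 2) ≤ K * ((1 - r) ^ (-η) * ((1 - r) * repGen A k i r +
        2 * ∑ n ∈ range n₀, (rep A k i n : ℝ)) ^ (2 / (k : ℝ)) + 1) := by
  obtain ⟨K, hK0, hK⟩ := pointwise_sharp k hk i hi A n₀ hmono η hη0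
  have hk0 : (0 : ℝ) < k := by exact_mod_cast (by omega : 0 < k)
  have hk2 : (2 : ℝ) ≤ k := by exact_mod_cast hk
  set p : ℝ := 2 / (k : ℝ) with hp
  have hp1 : p ≤ 1 := by rw [hp, div_le_one hk0]; exact hk2
  have hpi := Real.pi_pos
  have hIint := integrable_abs_rpow (s := p - η) (by linarith)
  set I : ℝ := ∫ θ, |θ| ^ (-(p - η)) ∂mu with hI
  have hI0 : 0 ≤ I := by
    rw [hI]
    exact integral_nonneg fun θ => Real.rpow_nonneg (abs_nonneg _) _
  set m : ℝ := ∫ _θ, (1 : ℝ) ∂mu with hm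
  have hm0 : 0 ≤ m := by
    rw [hm]
    exact integral_nonneg fun θ => zero_le_one
  refine ⟨(K * I + K * m + m) / π + 1, by positivity, ?_⟩
  intro r hr hr1
  have hr0 : 0 ≤ r := by linarith
  set C0 : ℝ := 2 * ∑ n ∈ range n₀, (rep A k i n : ℝ) with hC0
  set Y : ℝ := (1 - r) * repGen A k i r + C0 with hY
  have hrg0 : 0 ≤ repGen A k i r := by
    unfold repGen
    exact tsum_nonneg fun n => by positivity
  have hY0 : 0 ≤ Y := by
    have : 0 ≤ (1 - r) * repGen A k i r := mul_nonneg (by linarith) hrg0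
    have : 0 ≤ C0 := by positivity
    linarith
  set V : ℝ := (1 - r) ^ (-η) * Y ^ p with hV
  have hV0 : 0 ≤ V := mul_nonneg (Real.rpow_nonneg (by linarith) _) (Real.rpow_nonneg hY0 _)
  -- the integral of the left side
  have hL := integral_norm_gen_sq A hr0 hr1 (le_refl 1)
  simp only [pow_one, mul_one] at hL
  have hle : ∫ θ, ‖gen A (pt r θ)‖ ^ 2 ∂mu
      ≤ ∫ θ, (K * (V * |θ| ^ (-(p - η)) + 1)
        + 1 / (4 * (k : ℝ) ^ 2) * (2 + 2 * k * ∑ j ∈ Icc 1 k, ‖gen A (pt r θ ^ j)‖ ^ 2)) ∂mu := by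
    refine integral_mono_of_nonneg (Filter.Eventually.of_forall fun θ => by positivity) ?_ ?_
    · refine Integrable.add ?_ ?_
      · exact ((hIint.const_mul V).add (integrable_const 1)).const_mul K
      · refine ((integrable_const 2).add ?_).const_mul _
        refine Integrable.const_mul ?_ _
        refine integrable_finsetSum _ fun j hj => ?_
        exact integrable_norm_gen_sq A hr0 hr1 (mem_Icc.1 hj).1
    · have hae1 : ∀ᵐ θ ∂mu, θ ≠ 0 := by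
        unfold mu
        exact ae_restrict_of_ae (Measure.ae_ne volume 0)
      have hae2 : ∀ᵐ θ ∂mu, θ ∈ Set.Ioc (-π) π := by
        unfold mu
        exact ae_restrict_mem measurableSet_Ioc
      filter_upwards [hae1, hae2] with θ h1 h2
      exact hK r hr hr1 θ (abs_le.2 ⟨h2.1.le, h2.2⟩) h1 hη
  have hR : ∫ θ, (K * (V * |θ| ^ (-(p - η)) + 1)
        + 1 / (4 * (k : ℝ) ^ 2) * (2 + 2 * k * ∑ j ∈ Icc 1 k, ‖gen A (pt r θ ^ j)‖ ^ 2)) ∂mu
      = K * (V * I + m) + 1 / (4 * (k : ℝ) ^ 2) * (2 * m +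
        2 * k * ∑ j ∈ Icc 1 k, 2 * π * genR A (r ^ (2 * j))) := by
    rw [integral_add, integral_const_mul, integral_add, integral_const_mul, integral_const_mul,
      integral_add, integral_const_mul, integral_finsetSum]
    · congr 2
      congr 1
      · rw [hm, ← integral_const_mul]
        simp
      · congr 1
        exact Finset.sum_congr rfl fun j hj => integral_norm_gen_sq A hr0 hr1 (mem_Icc.1 hj).1
    · intro j hj
      exact integrable_norm_gen_sq A hr0 hr1 (mem_Icc.1 hj).1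
    · exact integrable_const 2
    · refine Integrable.const_mul ?_ _
      refine integrable_finsetSum _ fun j hj => ?_
      exact integrable_norm_gen_sq A hr0 hr1 (mem_Icc.1 hj).1
    · exact hIint.const_mul V
    · exact integrable_const 1
    · exact ((hIint.const_mul V).add (integrable_const 1)).const_mul K
    · refine ((integrable_const 2).add ?_).const_mul _
      refine Integrable.const_mul ?_ _
      refine integrable_finsetSum _ fun j hj => ?_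
      exact integrable_norm_gen_sq A hr0 hr1 (mem_Icc.1 hj).1
  rw [hL, hR] at hle
  set G : ℝ := genR A (r ^ 2) with hG
  have hr2 : r ^ 2 < 1 := pow_lt_one₀ hr0 hr1 (by norm_num)
  have hG0 : 0 ≤ G := genR_nonneg A (by positivity)
  have hsum : ∑ j ∈ Icc 1 k, 2 * π * genR A (r ^ (2 * j)) ≤ k * (2 * π * G) := by
    have : ∀ j ∈ Icc 1 k, 2 * π * genR A (r ^ (2 * j)) ≤ 2 * π * G := by
      intro j hj
      have hj1 := (mem_Icc.1 hj).1
      have : genR A (r ^ (2 * j)) ≤ G :=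
        genR_mono A (by positivity) (pow_le_pow_of_le_one hr0 hr1.le (by omega)) hr2
      have h2pi : 0 ≤ 2 * π := by positivity
      exact mul_le_mul_of_nonneg_left this h2pi
    have h2 := Finset.sum_le_card_nsmul _ _ _ this
    rw [Nat.card_Icc, nsmul_eq_mul] at h2
    simpa using h2
  have h13 : 1 / (4 * (k : ℝ) ^ 2) * (2 * m + 2 * k * ∑ j ∈ Icc 1 k, 2 * π * genR A (r ^ (2 * j)))
      ≤ m + π * G := by
    calc 1 / (4 * (k : ℝ) ^ 2) * (2 * m + 2 * k * ∑ j ∈ Icc 1 k, 2 * π * genR A (r ^ (2 * j)))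
        ≤ 1 / (4 * (k : ℝ) ^ 2) * (2 * m + 2 * k * (k * (2 * π * G))) := by gcongr
      _ = m / (2 * (k : ℝ) ^ 2) + π * G := by field_simp; ring
      _ ≤ m + π * G := by
          have : m / (2 * (k : ℝ) ^ 2) ≤ m := by
            apply div_le_self hm0
            nlinarith
          linarith
  have h14 : π * G ≤ K * (V * I + m) + m := by linarith
  have h15 : G ≤ (K * (V * I + m) + m) / π := by
    rw [le_div_iff₀ hpi]; linarith
  refine h15.trans ?_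
  have h16 : (K * (V * I + m) + m) / π ≤ (K * I + K * m + m) / π * (V + 1) := by
    rw [div_mul_eq_mul_div]
    gcongr
    have e1 : 0 ≤ K * I := by positivity
    have e2 : 0 ≤ K * m * V := by positivity
    have e3 : 0 ≤ m * V := by positivity
    nlinarith
  refine h16.trans ?_
  have : 0 ≤ V + 1 := by linarith
  nlinarith


end Pool.Agent.RepSharp
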